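import Pool.Agent.K6.H49.UGB.Fin

/-!
# Gap unique games on expanders of bounded degree are NP-hard, for every number of labels

Definitions: `Pool/Agent/K6/H49/UGX/Defs.lean` (unique games, value, regularity, second singular
value) and `Pool/Agent/NPC/Defs.lean` (polynomial time, `NP`, the code `bits` of data).

The reduction starts from the gap version of 3SAT with bounded occurrences (PCP theorem, proved in
`Pool/Agent/H243R3/PCP`). Let `X` be the graph of the walks with `t` steps in an explicit expander
on the `m` vertices of the formula (variables and one auxiliary vertex per clause), and `Y` the
graph of the walks with `t` steps in an explicit expander on `s` vertices. The host graph is the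
product of `X` and `Y`: its degree and its second singular value depend on `t` only, the copy
number `0` of the vertices of the formula carries the formula, and every vertex has only few
neighbours there. The other copies are hubs. Every edge between hubs gets the identity and a
permutation whose only fixed point is the label `0` (the identity for two labels), every other edge
of the host gets the identity and the transposition of `0` and `1`. So in a good labeling all hubs
have the label `0` (for two labels: the same label, by the expansion of the host), all other
vertices the label `0` or `1`, and exactly one constraint of every pair at a vertex of the formula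
is violated. On top of the host there are `g` copies of the clause gadgets, of bounded degree, in
which every vertex is compared with its own hub, and loops which make the game regular. A clause
costs at least `8` per copy, and at least `12` if it is false. With `g` proportional to `σ` times
the degree of the host, the gadgets disturb the spectrum by little, and contribute the fraction
`σ` of the violated constraints. The number `s` dilutes them, which makes the fraction of the
violated constraints as small as desired, at constant degree.
-/

namespace Pool.Agent.Results.MP_325f1f_lc.BoundedDegreeExpanders

open Pool.Agent.NPC Pool.Agent.K6.H49.UGX

/-- There is `C > 0` such that for every `0 < σ ≤ 1` there is a degree `d ≤ (C / σ) ^ C` such that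
for all `0 < ε ≤ σ / C` and all `q ≥ 2` every language in `NP` reduces in polynomial time to unique
games with `q` labels on `d`-regular bipartite multigraphs with second singular value at most
`σ d`, such that the words of the language are mapped to games of value at least `1 - ε`, and the
other words to games of value at most `1 - (1 + σ / C) ε`. -/
theorem result : ∃ C : ℕ, 0 < C ∧ ∀ σ : ℝ, 0 < σ → σ ≤ 1 → ∃ d : ℕ, (d : ℝ) ≤ (C / σ) ^ C ∧
    ∀ ε : ℝ, 0 < ε → C * ε ≤ σ → ∀ q : ℕ, 2 ≤ q →
    ∀ L : Set (List Bool), InNP L → ∃ f : List Bool → List Bool, PolyTime f ∧
      ∀ x, ∃ G : Game, f x = bits G ∧ IsUnique q G ∧ Regular G d ∧
        SecondLE G (σ * d) ∧ (x ∈ L → ValGE q G (1 - ε)) ∧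
        (x ∉ L → ValLE q G (1 - (1 + σ / C) * ε)) :=
  Pool.Agent.K6.H49.UGB.main

end Pool.Agent.Results.MP_325f1f_lc.BoundedDegreeExpanders
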