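import Pool.Agent.K6.H49.LTR.Fin

/-!
# Unique games on graphs of low threshold rank

Definitions: `Pool/Agent/K6/H49/UGX/Defs.lean` (unique games, regularity),
`Pool/Agent/K6/H49/LTR/Defs.lean` (threshold rank), `Pool/Agent/K6/H49/UGX/Defs2.lean` (the
fraction of violated constraints), `Pool/Agent/K6/H49/UGQ/Defs.lean` (labelings given by lists of
numbers) and `Pool/Agent/NPC/Defs.lean` (polynomial time, the code `bits` of data).

The proof has three parts. Let `A` be the biadjacency matrix of the label-extended graph, divided
by the degree, and let the constraint graph have at most `k` singular values above `σ`.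

(1) If `8 σ Q ≤ 1` then `A` has at most `4 k q Q²` singular values above `1 / √Q`; the threshold
does not depend on the number `q` of labels. For orthonormal singular vectors let `W u` and `W' v`
be the matrices of their values at the vertices. The inner product of `W u` with the permuted
`W' v` is at most `tr (|W u| |W' v|) / (2 η) + η ‖W u‖ ‖W' v‖ / 2` (an inequality of Hölder type);
both terms are bounded by the expansion of the constraint graph outside of `k` dimensions, and
`‖∑ c u |W u|‖² ≤ q` for all unit vectors `c`.

(2) Let `x` and `y` be the indicators of an optimal labeling, which violates the fraction `ε` of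
the constraints, and let `P` be the projection to the singular vectors above `2 / √Q`. For all
labels `y'` of the right vertices with the best scores for `Aᵀ P x` the loss is
`((1 - P) x)ᵀ A (y - y')`, where `(1 - P) x`, `y - Aᵀ x` and hence `y - y'` have square norm
`O(ε n)`; so the loss is `O(1 / √Q) ε n`.

(3) The vector `P x` is approximated with polynomially small error by a combination of at most
`4 k q Q²` columns of `(A Aᵀ) ^ L` with integral coefficients of polynomial size, where `L` is
logarithmic. The columns are found by Gaussian elimination with pivots (in the analysis), and the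
algorithm tries all columns and coefficients.
-/

namespace Pool.Agent.Results.MP_325f1f_lc.LowThresholdRank

open Pool.Agent.NPC Pool.Agent.K6.H49.UGX Pool.Agent.K6.H49.UGQ Pool.Agent.K6.H49.LTR

/-- There is `C > 0` such that for all `q ≥ 1`, `k` and `δ > 0` there is a polynomial-time
algorithm which finds, for every unique game with `q` labels on a regular bipartite multigraph of
degree `d` with at most `k` singular values above `σ d`, where `σ ≤ 1 / C`, a labeling which
violates at most `1 + C (√σ + δ)` times as many constraints as any labeling. -/
theorem result : ∃ C : ℝ, 0 < C ∧ ∀ (q : ℕ) [NeZero q] (k : ℕ) (δ : ℝ), 0 < δ →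
    ∃ A : List Bool → List Bool, PolyTime A ∧
    ∀ (G : Game) (d : ℕ) (σ : ℝ), IsUnique q G → Regular G d → 0 ≤ σ → C * σ ≤ 1 →
      RankLE G k (σ * d) → ∃ w w' : List ℕ, A (bits G) = bits (w, w') ∧ ∀ f g : ℕ → Fin q,
        viol G (labq q w) (labq q w') ≤ (1 + C * (√σ + δ)) * viol G f g :=
  Pool.Agent.K6.H49.LTR.algorithm_unique

end Pool.Agent.Results.MP_325f1f_lc.LowThresholdRank
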