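import Pool.Agent.K6.H1.UG.NoiseGame

/-!
# Gap unique games are hard for circuits with noisy negations

A unique game with `N + N` vertices, alphabet `[q]` and tagged constraints is a set `J` of positions
`((u, v, π), j)`: a left vertex `u`, a right vertex `v`, a permutation `π` of `[q]` and a tag `j < K`
(the tag has no meaning; only games in which no constraint `(u, v, π)` occurs with two tags are
considered).

The model: randomised circuits (finite families) that read all the literals (the bits `e ∈ J` and
their negations `e ∉ J` for the positions `e`), with gates that compute arbitrary nondecreasing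
real functions of two arguments. There is no bound on the depth, and every circuit with AND, OR and
NOT gates takes this form if its size is doubled. So for reliable literals a superpolynomial lower
bound would be the Unique Games Conjecture for circuits.

Noise: the bits `e ∈ J` are reliable, but each negated literal passes through a noisy channel,
independently of the others. The channel is arbitrary, except that for a constraint which does not
belong to the game both values occur. If the noise is uniform on `D` values then the probability of
an error may be as small as `1 / D`. Examples: each negated literal is flipped with probability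
`1 / D`; each negated literal is stuck at `0` with probability `1 / D`.

The problem: for `q ≥ 2`, `δ > 1 / q` and `ε ≥ N ^ (-1/139)` (in particular for all constants `ε > 0`)
tell the games with `m` constraints in which every labelling satisfies at most `δ m` constraints from
the games with at least `m` constraints in which some labelling violates at most `ε m` constraints.
The circuits are only required to be correct with large probability in the presence of the noise.

Result: if there are `K ≥ 150 D N² q!` tags then such circuits need `2 ^ (N ^ (1 / 139))` gates.

For `D = N ^ a` there are `n = O (N ^ (a + 4))` positions, so that exponential size is necessary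
although each negated literal is wrong only with the small probability `n ^ (-a / (a + 4))`, up to a
constant factor. If all negated literals are useless (monotone circuits) this is the starting result
`MonotoneCircuits`, whose lower bound is used in the proof. For `ε = 0` label propagation gives
monotone circuits of polynomial size.

The proof hides the constraints: each constraint of a game without tags gets a random tag. In the
tagged game the place which an absent constraint would get is hidden in the noise: if the noisy
negation at this place is drawn as if the constraint belonged to the game then the joint distribution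
of the noise changes only by a small distance in total variation (a second moment bound,
`Pool.Agent.K6.H1.UG.hide_noise`). So all negated literals can be replaced by random bits that do not
depend on the game without tags, and this gives a monotone randomised circuit for it.
-/

set_option autoImplicit false

namespace Pool.Agent.Results.MP_325f1f_lc.NoisyNegations

open Finset Pool.Agent.W906.MU

/-- The positions `((u, v, π), j)`: the constraint that the permutation `π` of `[q]` maps the label
of the left vertex `u` to the label of the right vertex `v`, with the tag `j`.
(`Con N q = Fin N × Fin N × Equiv.Perm (Fin q)`.) -/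
abbrev Position (N q K : ℕ) : Type := Con N q × Fin K

/-- No constraint occurs with two tags. -/
def Once {N q K : ℕ} (J : Finset (Position N q K)) : Prop :=
  ∀ e ∈ J, ∀ e' ∈ J, e.1 = e'.1 → e = e'

open Classical in
/-- `J` has exactly `m` constraints and every labelling `f` of the left and `g` of the right
vertices satisfies at most `δ m` of them. (`Sat f g (u, v, π)` says that `π (f u) = g v`.) -/
def LowValue {N q K : ℕ} (m : ℕ) (δ : ℝ) (J : Finset (Position N q K)) : Prop :=
  Once J ∧ J.card = m ∧
    ∀ f g : Fin N → Fin q, ((J.filter fun e => Sat f g e.1).card : ℝ) ≤ δ * m

open Classical in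
/-- `J` has at least `m` constraints and some labelling violates at most `ε m` of them. -/
def HighValue {N q K : ℕ} (m : ℕ) (ε : ℝ) (J : Finset (Position N q K)) : Prop :=
  Once J ∧ m ≤ J.card ∧
    ∃ f g : Fin N → Fin q, ((J.filter fun e => ¬ Sat f g e.1).card : ℝ) ≤ ε * m

/-- The noisy literals of the game `J`, for the noise `z`. The literal `(e, true)` says that `e`
belongs to `J`. The literal `(e, false)` is the value which the channel `A` makes of the negation,
`A (z e) b` where `b` tells whether `e` does not belong to `J`. -/
def noisyLiterals {N q K D : ℕ} (A : Fin D → Bool → Bool) (J : Finset (Position N q K))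
    (z : Position N q K → Fin D) : Position N q K × Bool → Bool :=
  fun p => if p.2 = true then decide (p.1 ∈ J) else A (z p.1) (decide (p.1 ∉ J))

/-- The inputs of circuits on literals: the values (`0` or `1`) of the literals and the constants. -/
def litInputs (E : Type) : Set ((E × Bool → Bool) → ℝ) :=
  {h | (∃ p, h = fun y => if y p = true then 1 else 0) ∨ ∃ c : ℝ, h = fun _ => c}

/-- A circuit on the literals of the positions. Its gates are input gates (literals or constants)
and gates that apply an arbitrary nondecreasing function of two real arguments to the values of
earlier gates (`Prog`); `gates` is the list of the functions computed at the gates. The circuit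
accepts if the value of the gate `out` is at least `θ`. -/
structure Circuit (N q K : ℕ) where
  gates : List ((Position N q K × Bool → Bool) → ℝ)
  prog : Prog (litInputs (Position N q K)) gates
  out : (Position N q K × Bool → Bool) → ℝ
  mem : out ∈ gates
  θ : ℝ

/-- The circuit accepts the values `y` of the literals. -/
def Circuit.Accepts {N q K : ℕ} (C : Circuit N q K) (y : Position N q K × Bool → Bool) : Prop :=
  C.θ ≤ C.out y

/-- The probability that the game `J` is accepted by a circuit that is chosen uniformly at random
from the family `C`, if the negated literals pass through the channel `A` with independent uniform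
noise (each position `e` gets a random number `z e` from `0` to `D - 1`). -/
noncomputable def noisyAcceptance {N q K D : ℕ} {R : Type} (C : R → Circuit N q K)
    (A : Fin D → Bool → Bool) (J : Finset (Position N q K)) : ℝ :=
  (Nat.card {v : R × (Position N q K → Fin D) // (C v.1).Accepts (noisyLiterals A J v.2)} : ℝ) /
    Nat.card (R × (Position N q K → Fin D))

/-- Let `q ≥ 2` and `δ > 1 / q`. For all large `N` there is `m > 0` such that for all
`ε ≥ N ^ (-1 / 139)`, all `D` and all `K ≥ max (1, 150 D N² q!)` the following holds. Let `A` be a
channel with noise from `{0, ..., D - 1}` such that both values occur for the noisy negation at a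
position that does not belong to the game, and let `C` be a randomised circuit (a finite nonempty
family) on the noisy literals of the unique games with `N + N` vertices, alphabet `[q]` and tags
`j < K`. If `C` accepts the games with `m` constraints and value at most `δ` with probability at
least `3 / 4`, and the games with at least `m` constraints of which some labelling violates at most
`ε m` with probability at most `1 / 4`, then a member of `C` has at least `2 ^ (N ^ (1 / 139))`
gates. -/
theorem result (q : ℕ) (hq : 2 ≤ q) (δ : ℝ) (hδ : 1 / (q : ℝ) < δ) :
    ∃ N0 : ℕ, ∀ N : ℕ, N0 ≤ N → ∃ m : ℕ, 0 < m ∧ ∀ ε : ℝ, (N : ℝ) ^ (-(1 / 139) : ℝ) ≤ ε →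
      ∀ D K : ℕ, 1 ≤ K → 150 * D * N ^ 2 * q.factorial ≤ K →
        ∀ A : Fin D → Bool → Bool, (∃ k, A k true = false) → (∃ k, A k true = true) →
        ∀ (R : Type) [Finite R] [Nonempty R] (C : R → Circuit N q K),
          (∀ J, LowValue m δ J → 3 / 4 ≤ noisyAcceptance C A J) →
          (∀ J, HighValue m ε J → noisyAcceptance C A J ≤ 1 / 4) →
          ∃ ρ, (2 : ℝ) ^ ((N : ℝ) ^ (1 / 139 : ℝ)) ≤ (C ρ).gates.length := by
  classical
  obtain ⟨N0, hN0⟩ := lower q (by omega) δ hδ
  refine ⟨N0, fun N hN => ?_⟩
  obtain ⟨m, hm, h⟩ := hN0 N hN
  refine ⟨m, hm, fun ε hε D K hK hKD A hA0 hA1 R _ _ C h1 h2 => ?_⟩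
  let _ : Fintype R := Fintype.ofFinite R
  have hD : 1 ≤ D := by
    obtain ⟨k, -⟩ := hA0
    exact Nat.one_le_iff_ne_zero.mpr (fun h => by subst h; exact k.elim0)
  have hR : (0 : ℝ) < Fintype.card R := by exact_mod_cast Fintype.card_pos
  have hDR : (0 : ℝ) < D := by exact_mod_cast hD
  have _ : NeZero K := ⟨by omega⟩
  have _ : NeZero D := ⟨by omega⟩
  have hcard : Fintype.card (Con N q) = N ^ 2 * q.factorial := by
    rw [Fintype.card_prod, Fintype.card_prod, Fintype.card_perm, Fintype.card_fin,
      Fintype.card_fin]
    ring
  have hpos : (0 : ℝ) < Fintype.card R * (D : ℝ) ^ Fintype.card (Con N q × Fin K) := by positivity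
  have heq : ∀ J : Finset (Position N q K), noisyAcceptance C A J =
      ((univ.filter fun v : R × (Con N q × Fin K → Fin D) =>
        (C v.1).θ ≤ (C v.1).out (Pool.Agent.K6.H1.UG.view A J v.2)).card : ℝ) /
      (Fintype.card R * (D : ℝ) ^ Fintype.card (Con N q × Fin K)) := by
    intro J
    unfold noisyAcceptance
    rw [Nat.card_eq_fintype_card (α := R × (Position N q K → Fin D)), Fintype.card_prod,
      Fintype.card_fun, Fintype.card_fin, Nat.card_eq_fintype_card, Fintype.card_subtype]
    push_cast
    congr 2
  obtain ⟨l', hprog, hlen, hsep⟩ := Pool.Agent.K6.H1.UG.NG.noisy (K := K) (D := D) (m := m) δ ε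
    hK hD (by
      rw [hcard]
      have h3 : ((150 * D * N ^ 2 * q.factorial : ℕ) : ℝ) ≤ K := by exact_mod_cast hKD
      push_cast at h3 ⊢
      linarith) A hA0 hA1 (fun ρ => (C ρ).gates) (fun ρ => (C ρ).prog) (fun ρ => (C ρ).out)
    (fun ρ => (C ρ).θ) (fun ρ => (C ρ).mem)
    (fun J hJ => by
      have h3 := h1 J hJ
      rw [heq, le_div_iff₀ hpos] at h3
      exact h3)
    (fun J hJ => by
      have h3 := h2 J hJ
      rw [heq, div_le_iff₀ hpos] at h3
      exact h3)
  have _ : Nonempty (R × (Con N q → Fin K) × (Con N q × Fin K → Fin D)) :=
    ⟨(Classical.arbitrary R, fun _ => 0, fun _ => 0)⟩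
  obtain ⟨ω, hω⟩ := h ε hε _ l' hprog hsep
  rw [hlen ω] at hω
  exact ⟨ω.1, hω⟩

end Pool.Agent.Results.MP_325f1f_lc.NoisyNegations
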