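import Pool.Agent.K6.H49.UGS.AlgF

/-!
# Unique games on good expanders: a ratio which tends to one uniformly

Definitions: `Pool/Agent/K6/H49/UGX/Defs.lean` (unique games, regularity, second singular value),
`Pool/Agent/K6/H49/UGX/Defs2.lean` (the fraction of violated constraints),
`Pool/Agent/K6/H49/UGQ/Defs.lean` (labelings given by lists of numbers) and
`Pool/Agent/NPC/Defs.lean` (polynomial time, the code `bits` of data).

The algorithm has two parts. The first part (`Pool/Agent/K6/H49/UGR`) gives polynomially many
labelings. If the optimal labeling violates only a small constant fraction `ε` of the constraints,
then one of them violates at most `1 + O(σ + ε)` times as many constraints, and it agrees with an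
optimal labeling at all but few vertices. Call a vertex ambiguous if this labeling violates at least
a quarter of its constraints (if `ε` is large: call every vertex ambiguous). By the mixing of the
expander at most `O(σ²) ε n` of the clear vertices have a label which is not the optimal one, and at
most the fraction `μ = 8 ε` of the vertices is ambiguous. In the second part the labels of the clear
vertices are kept. Let `A` be the normalised biadjacency matrix of the part of the label-extended
graph at the ambiguous vertices. For every tuple of `s` pairs of a vertex and a label and all `a`
and `b` the algorithm computes `Aᵀ (1 - (1 - (A Aᵀ) ^ a) ^ b) e`, where `e` is the sum of the unit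
vectors of the pairs, gives every ambiguous right vertex the label with the best score, and gives
the left vertices the best response. The best labeling found is returned.

The point is that `A` has at most `16 Q q` singular values above `1 / (2 √Q)` as soon as
`16 Q σ (σ + μ) ≤ 1`, a threshold which does not depend on `q`: for orthonormal vectors on both
sides let `W u` be the matrices of their values at the vertices. The sum of the entries of `W u`
times those of `W' v` (permuted) is at most `tr (|W u| |W' v|) / (2 η) + η ‖W u‖ ‖W' v‖ / 2`, an
inequality of Hölder type, and both terms are bounded by the mixing of the expander, since the sum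
of the matrices `|W u|` over the ambiguous vertices has the square norm at most `q μ n`. Hence the
filter has bounded Frobenius norm, a short random sum of unit vectors approximates the image of the
indicator of an optimal labeling, and the rounding loses only `O(1 / √Q) μ` of the constraints.
-/

namespace Pool.Agent.Results.MP_325f1f_lc.UniformRatio

open Pool.Agent.NPC Pool.Agent.K6.H49.UGX Pool.Agent.K6.H49.UGQ

/-- There is `C > 0` such that for all `q ≥ 1` and `δ > 0` there is a polynomial-time algorithm
which finds, for every unique game with `q` labels on a regular bipartite multigraph of degree `d`
with second singular value at most `σ d`, where `σ ≤ 1 / C`, a labeling which violates at most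
`1 + C (√(σ (σ + ε)) + min δ ε)` times the fraction `ε` of constraints violated by any labeling. -/
theorem result : ∃ C : ℝ, 0 < C ∧ ∀ (q : ℕ) [NeZero q] (δ : ℝ), 0 < δ →
    ∃ A : List Bool → List Bool, PolyTime A ∧
    ∀ (G : Game) (d : ℕ) (σ : ℝ), IsUnique q G → Regular G d → 0 ≤ σ → C * σ ≤ 1 →
      SecondLE G (σ * d) → ∃ w w' : List ℕ, A (bits G) = bits (w, w') ∧ ∀ f g : ℕ → Fin q,
        viol G (labq q w) (labq q w') ≤
          (1 + C * (√(σ * (σ + viol G f g)) + min δ (viol G f g))) * viol G f g :=
  Pool.Agent.K6.H49.UGS.algorithm

end Pool.Agent.Results.MP_325f1f_lc.UniformRatio
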